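import Pool.Agent.Lib.MP_4be2f9_h65.Fin

/-!
For `SU(N)` and every `k ≥ 4`, no `ε > 2 - 2 cos(π/N)` is admissible: some symmetric set of `k`
elements generates a dense subgroup and has infinitely many distinct eigenvalues above `k - ε`.
-/

set_option autoImplicit false

namespace Pool.Agent.Results.MP_4be2f9_an.GapBoundSU

/-- `SU(N)` is Mathlib's special unitary group of `N` by `N` complex matrices; the eigenfunctions
are continuous and not identically zero. -/
theorem result (N : ℕ) (hN : 2 ≤ N) (k : ℕ) (hk : 4 ≤ k) (ε : ℝ)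
    (hε : 2 - 2 * Real.cos (Real.pi / N) < ε) :
    ∃ S : Finset (Matrix.specialUnitaryGroup (Fin N) ℂ), S.card = k ∧ (∀ s ∈ S, s⁻¹ ∈ S) ∧
      Dense (Subgroup.closure (S : Set (Matrix.specialUnitaryGroup (Fin N) ℂ)) :
        Set (Matrix.specialUnitaryGroup (Fin N) ℂ)) ∧
      {c : ℝ | (k : ℝ) - ε < c ∧ ∃ f : Matrix.specialUnitaryGroup (Fin N) ℂ → ℂ,
        Continuous f ∧ f ≠ 0 ∧ ∀ x, ∑ s ∈ S, f (s * x) = (c : ℂ) * f x}.Infinite :=
  Pool.Agent.SG65.main N hN k hk ε hε

end Pool.Agent.Results.MP_4be2f9_an.GapBoundSU
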